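import Mathlib

/-!
# MP_6ae049_co, Q1: subdividing every edge preserves locatability

Robber locating game (no restriction on the robber's moves).  If `G` is locatable then so is the
graph `G^{1/2}` obtained by subdividing every edge once.

Idea: the cop keeps probing the original vertices of her winning strategy on `G`.  If she knows
that the robber is in `P T` (a vertex of `T`, or the middle of an edge meeting `T`), then after his
next move he is at a vertex of `N[T]` or in the middle of an edge meeting `T`, whose two ends lie in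
`N[T]`.  An even answer `2d` puts him in `C d`, the vertices of `N[T]` at distance `d`; an odd
answer `2d+1` puts him in the middle of an edge whose nearer end is in `C d`; if `C d` has a single
element, then the further ends are different elements of `C (d+1)`.  So a set of possible positions
with at least two elements always lies in `P (C d')` for some `C d'` with at least two elements.
-/

namespace Pool.Agent.Results.MP_6ae049_co.SubdivisionLocatable

open SimpleGraph

variable {V : Type*}

/-- A legal robber trajectory: `r n` is the vertex he occupies when the `(n+1)`-st probe is made.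
Between two consecutive probes he stays put or moves to an adjacent vertex. -/
def Legal (G : SimpleGraph V) (r : ℕ → V) : Prop :=
  ∀ n, r (n + 1) = r n ∨ G.Adj (r n) (r (n + 1))

/-- The answers to the first `n` probes (most recent answer first) when the cop plays the
strategy `σ` (which names the next probe from the list of answers so far) and the robber follows
`r`. -/
noncomputable def answers (G : SimpleGraph V) (σ : List ℕ∞ → V) (r : ℕ → V) : ℕ → List ℕ∞
  | 0 => []
  | n + 1 => G.edist (σ (answers G σ r n)) (r n) :: answers G σ r n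

/-- After the `(n+1)`-st answer the answers so far determine the robber's current vertex. -/
def Located (G : SimpleGraph V) (σ : List ℕ∞ → V) (r : ℕ → V) (n : ℕ) : Prop :=
  ∀ s : ℕ → V, Legal G s → answers G σ s (n + 1) = answers G σ r (n + 1) → s n = r n

/-- `G` is locatable: some strategy of the cop wins within a bounded number of rounds against
every robber behaviour. -/
def Locatable (G : SimpleGraph V) : Prop :=
  ∃ (N : ℕ) (σ : List ℕ∞ → V), ∀ r : ℕ → V, Legal G r → ∃ n < N, Located G σ r n

/-- The graph `G^{1/2}`: every edge is replaced by a path of length two through a new vertex. -/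
def subdivision (G : SimpleGraph V) : SimpleGraph (V ⊕ G.edgeSet) where
  Adj x y := match x, y with
    | Sum.inl v, Sum.inr e => v ∈ e.1
    | Sum.inr e, Sum.inl v => v ∈ e.1
    | _, _ => False
  symm := ⟨by rintro (v | e) (w | f) h <;> exact h⟩
  loopless := ⟨by rintro (v | e) h <;> exact h⟩

/-! ## The knowledge sets -/

/-- closed neighbourhood of a set -/
def nb (G : SimpleGraph V) (S : Set V) : Set V := {w | ∃ u ∈ S, w = u ∨ G.Adj u w}

/-- possible current vertices after a list of answers -/
def K (G : SimpleGraph V) (σ : List ℕ∞ → V) : List ℕ∞ → Set V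
  | [] => Set.univ
  | d :: L => {w | w ∈ nb G (K G σ L) ∧ G.edist (σ L) w = d}

/-- winning sets (possible positions right after an answer) -/
def AW (G : SimpleGraph V) : ℕ → Set V → Prop
  | 0, T => T.Subsingleton
  | n + 1, T => T.Subsingleton ∨ ∃ v, ∀ d : ℕ∞, AW G n {w | w ∈ nb G T ∧ G.edist v w = d}

lemma AW_of_subsingleton {G : SimpleGraph V} {T : Set V} (h : T.Subsingleton) :
    ∀ n, AW G n T
  | 0 => h
  | _ + 1 => Or.inl h

lemma nb_mono {G : SimpleGraph V} {S T : Set V} (h : S ⊆ T) : nb G S ⊆ nb G T := by
  rintro w ⟨u, hu, hw⟩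
  exact ⟨u, h hu, hw⟩

lemma subset_nb {G : SimpleGraph V} {S : Set V} : S ⊆ nb G S := fun w hw => ⟨w, hw, Or.inl rfl⟩

lemma AW_mono {G : SimpleGraph V} : ∀ (n : ℕ) {S T : Set V}, S ⊆ T → AW G n T → AW G n S
  | 0, S, T, h, hT => Set.Subsingleton.anti hT h
  | n + 1, S, T, h, hT => by
    rcases hT with hT | ⟨v, hv⟩
    · exact Or.inl (hT.anti h)
    · refine Or.inr ⟨v, fun d => AW_mono n ?_ (hv d)⟩
      rintro w ⟨hw, hd⟩
      exact ⟨nb_mono h hw, hd⟩

lemma answers_length (G : SimpleGraph V) (σ : List ℕ∞ → V) (r : ℕ → V) (n : ℕ) :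
    (answers G σ r n).length = n := by
  induction n with
  | zero => rfl
  | succ n ih => simp [answers, ih]

lemma answers_congr {G : SimpleGraph V} {σ : List ℕ∞ → V} {r s : ℕ → V} :
    ∀ n, (∀ m < n, r m = s m) → answers G σ r n = answers G σ s n
  | 0, _ => rfl
  | n + 1, h => by
    have ih := answers_congr (G := G) (σ := σ) n (fun m hm => h m (by omega))
    simp [answers, ih, h n (by omega)]

/-- the robber is in the knowledge set -/
lemma mem_K {G : SimpleGraph V} {σ : List ℕ∞ → V} {r : ℕ → V} (hr : Legal G r) :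
    ∀ n, r n ∈ K G σ (answers G σ r (n + 1)) := by
  intro n
  induction n with
  | zero =>
    refine ⟨⟨r 0, trivial, Or.inl rfl⟩, rfl⟩
  | succ n ih =>
    refine ⟨⟨r n, ih, ?_⟩, rfl⟩
    exact hr n

/-- each element of the knowledge set is the end of a legal trajectory with these answers -/
lemma exists_of_mem_K {G : SimpleGraph V} {σ : List ℕ∞ → V} :
    ∀ (L : List ℕ∞) (d : ℕ∞) (w : V), w ∈ K G σ (d :: L) →
      ∃ s, Legal G s ∧ answers G σ s (L.length + 1) = d :: L ∧ s L.length = w
  | [], d, w, hw => by
    refine ⟨fun _ => w, fun n => Or.inl rfl, ?_, rfl⟩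
    have := hw.2
    show G.edist (σ []) w :: [] = _
    rw [this]
  | d' :: L, d, w, hw => by
    obtain ⟨⟨u, hu, huw⟩, hd⟩ := hw
    obtain ⟨s, hs, hans, hsu⟩ := exists_of_mem_K L d' u hu
    refine ⟨fun m => if m ≤ L.length then s m else w, ?_, ?_, ?_⟩
    · intro n
      by_cases h1 : n + 1 ≤ L.length
      · have h2 : n ≤ L.length := by omega
        simp only [h1, h2, if_true]
        exact hs n
      · by_cases h2 : n ≤ L.length
        · have h3 : n = L.length := by omega
          subst h3
          simp only [h1, if_false, le_refl, if_true, hsu]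
          exact huw
        · simp only [h1, h2, if_false]
          exact Or.inl trivial
    · have e1 : answers G σ (fun m => if m ≤ L.length then s m else w) (L.length + 1)
          = d' :: L := by
        rw [← hans]
        apply answers_congr
        intro m hm
        have : m ≤ L.length := by omega
        simp [this]
      rw [List.length_cons]
      show G.edist (σ (answers G σ _ (L.length + 1))) _ :: answers G σ _ (L.length + 1) = _
      rw [e1]
      have : ¬ (L.length + 1 ≤ L.length) := by omega
      simp only [this, if_false, hd]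
    · have : ¬ ((d' :: L).length ≤ L.length) := by simp
      exact if_neg this

lemma located_iff {G : SimpleGraph V} {σ : List ℕ∞ → V} {r : ℕ → V} (hr : Legal G r) (n : ℕ) :
    Located G σ r n ↔ (K G σ (answers G σ r (n + 1))).Subsingleton := by
  constructor
  · intro h
    have key : ∀ w ∈ K G σ (answers G σ r (n + 1)), w = r n := by
      intro w hw
      obtain ⟨s, hs, hans, hsw⟩ := exists_of_mem_K (answers G σ r n) _ w hw
      rw [answers_length] at hans hsw
      rw [← hsw]
      exact h s hs hans
    intro a ha b hb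
    rw [key a ha, key b hb]
  · intro h s hs hans
    have h1 := mem_K (σ := σ) hs n
    rw [hans] at h1
    exact h h1 (mem_K hr n)

/-- from a winning strategy to winning sets -/
lemma AW_of_strategy {G : SimpleGraph V} {σ : List ℕ∞ → V} {N : ℕ}
    (h : ∀ r : ℕ → V, Legal G r → ∃ n < N, Located G σ r n) :
    ∀ (j : ℕ) (L : List ℕ∞), L.length + j = N →
      (∀ L' : List ℕ∞, L' ≠ [] → L' <:+ L → ¬ (K G σ L').Subsingleton) → AW G j (K G σ L)
  | 0, L, hL, hns => by
    exfalso
    rcases L with _ | ⟨d, L⟩
    · obtain ⟨n, hn, -⟩ := h (fun _ => σ []) (fun n => Or.inl rfl)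
      simp at hL
      omega
    · have h1 := hns (d :: L) (by simp) (List.suffix_refl _)
      have h2 : (K G σ (d :: L)).Nonempty := by
        by_contra h3
        rw [Set.not_nonempty_iff_eq_empty] at h3
        rw [h3] at h1
        exact h1 Set.subsingleton_empty
      obtain ⟨w, hw⟩ := h2
      obtain ⟨s, hs, hans, -⟩ := exists_of_mem_K L d w hw
      obtain ⟨n, hn, hloc⟩ := h s hs
      rw [located_iff hs] at hloc
      refine hns (answers G σ s (n + 1)) (by simp [answers]) ?_ hloc
      have hlen : L.length + 1 = N := by simpa using hL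
      rw [← hans]
      have : ∀ m k, answers G σ s k <:+ answers G σ s (k + m) := by
        intro m k
        induction m with
        | zero => exact List.suffix_refl _
        | succ m ih => exact ih.trans (List.suffix_cons _ _)
      have h5 := this (L.length + 1 - (n + 1)) (n + 1)
      rwa [show n + 1 + (L.length + 1 - (n + 1)) = L.length + 1 by omega] at h5
  | j + 1, L, hL, hns => by
    refine Or.inr ⟨σ L, fun d => ?_⟩
    by_cases hsub : (K G σ (d :: L)).Subsingleton
    · exact AW_of_subsingleton hsub j
    · refine AW_of_strategy h j (d :: L) (by simp; omega) ?_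
      intro L' hne hsuf
      rcases List.suffix_cons_iff.mp hsuf with h1 | h1
      · rw [h1]; exact hsub
      · exact hns L' hne h1

/-- the next probe from a winning set -/
noncomputable def probe (G : SimpleGraph V) [Nonempty V] (k : ℕ) (T : Set V) : V :=
  open Classical in
  if h : ∃ v, ∀ d : ℕ∞, AW G k {w | w ∈ nb G T ∧ G.edist v w = d} then h.choose
  else Classical.arbitrary V

lemma probe_spec {G : SimpleGraph V} [Nonempty V] {k : ℕ} {T : Set V}
    (h : ∃ v, ∀ d : ℕ∞, AW G k {w | w ∈ nb G T ∧ G.edist v w = d}) :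
    ∀ d : ℕ∞, AW G k {w | w ∈ nb G T ∧ G.edist (probe G k T) w = d} := by
  unfold probe
  rw [dif_pos h]
  exact h.choose_spec

/-- state of the bookkeeping -/
noncomputable def st (G : SimpleGraph V) [Nonempty V] (n : ℕ) : List ℕ∞ → ℕ × Set V
  | [] => (n, Set.univ)
  | d :: L => ((st G n L).1 - 1,
      {w | w ∈ nb G (st G n L).2 ∧ G.edist (probe G ((st G n L).1 - 1) (st G n L).2) w = d})

/-- the strategy -/
noncomputable def strat (G : SimpleGraph V) [Nonempty V] (n : ℕ) (L : List ℕ∞) : V :=
  probe G ((st G n L).1 - 1) (st G n L).2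

lemma K_strat (G : SimpleGraph V) [Nonempty V] (n : ℕ) :
    ∀ L, K G (strat G n) L = (st G n L).2
  | [] => rfl
  | d :: L => by
    show {w | w ∈ nb G (K G (strat G n) L) ∧ G.edist (strat G n L) w = d} = _
    rw [K_strat G n L]
    rfl

lemma st_fst (G : SimpleGraph V) [Nonempty V] (n : ℕ) :
    ∀ L, (st G n L).1 = n - L.length
  | [] => rfl
  | d :: L => by
    show (st G n L).1 - 1 = _
    rw [st_fst G n L, List.length_cons]
    omega

/-- from winning sets to a winning strategy -/
lemma locatable_of_AW {G : SimpleGraph V} [Nonempty V] {n : ℕ} (h : AW G n Set.univ) :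
    Locatable G := by
  refine ⟨n + 1, strat G n, fun r hr => ?_⟩
  by_contra hcon
  push Not at hcon
  have hns : ∀ m < n + 1, ¬ (K G (strat G n) (answers G (strat G n) r (m + 1))).Subsingleton := by
    intro m hm hsub
    exact hcon m hm ((located_iff hr m).mpr hsub)
  have hns0 : ∀ m ≤ n, ¬ (K G (strat G n) (answers G (strat G n) r m)).Subsingleton := by
    intro m hm
    rcases m with _ | m
    · intro hsub
      have h1 : (Set.univ : Set V).Subsingleton := hsub
      exact hns 0 (by omega) (h1.anti (Set.subset_univ _))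
    · exact hns m (by omega)
  have main : ∀ m ≤ n, AW G (n - m) (K G (strat G n) (answers G (strat G n) r m)) := by
    intro m
    induction m with
    | zero => intro _; exact h
    | succ m ih =>
      intro hm
      have h1 := ih (by omega)
      have h2 : n - m = (n - (m + 1)) + 1 := by omega
      rw [h2] at h1
      rcases h1 with h1 | h1
      · exact absurd h1 (hns0 m (by omega))
      · have h3 : (st G n (answers G (strat G n) r m)).1 - 1 = n - (m + 1) := by
          rw [st_fst, answers_length]
          omega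
        have h4 := probe_spec h1
        have h5 : probe G (n - (m + 1)) (K G (strat G n) (answers G (strat G n) r m))
            = strat G n (answers G (strat G n) r m) := by
          rw [K_strat, ← h3]
          rfl
        rw [h5] at h4
        exact h4 _
  have := main n le_rfl
  rw [Nat.sub_self] at this
  exact hns0 n le_rfl this

/-! ## Distances in the subdivision -/

/-- distance from `v` to the nearer end of `e` -/
noncomputable def lev (G : SimpleGraph V) (v : V) (e : Sym2 V) : ℕ∞ :=
  Sym2.lift ⟨fun a b => min (G.edist v a) (G.edist v b), fun _ _ => min_comm _ _⟩ e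

lemma lev_mk (G : SimpleGraph V) (v a b : V) :
    lev G v s(a, b) = min (G.edist v a) (G.edist v b) := rfl

/-- the potential -/
noncomputable def pot (G : SimpleGraph V) (v : V) : V ⊕ G.edgeSet → ℕ∞
  | Sum.inl w => 2 * G.edist v w
  | Sum.inr e => 2 * lev G v e.1 + 1

lemma edist_le_add_one {G : SimpleGraph V} {v a b : V} (h : G.Adj a b) :
    G.edist v b ≤ G.edist v a + 1 := by
  have h1 := G.edist_triangle (u := v) (v := a) (w := b)
  rwa [SimpleGraph.edist_eq_one_iff_adj.mpr h] at h1

lemma pot_le {G : SimpleGraph V} {v : V} {x y : V ⊕ G.edgeSet} (h : (subdivision G).Adj x y) :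
    pot G v y ≤ pot G v x + 1 := by
  rcases x with w | ⟨e, he⟩ <;> rcases y with w' | ⟨e', he'⟩
  · exact h.elim
  · have hw : w ∈ e' := h
    obtain ⟨b, rfl⟩ := hw
    show 2 * lev G v s(w, b) + 1 ≤ 2 * G.edist v w + 1
    rw [lev_mk]
    gcongr
    exact min_le_left _ _
  · have hw : w' ∈ e := h
    obtain ⟨b, rfl⟩ := hw
    show 2 * G.edist v w' ≤ 2 * lev G v s(w', b) + 1 + 1
    rw [lev_mk]
    have hadj : G.Adj w' b := he
    have h1 : G.edist v w' ≤ min (G.edist v w') (G.edist v b) + 1 := by
      rw [← min_add_add_right]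
      exact le_min le_self_add (edist_le_add_one hadj.symm)
    calc 2 * G.edist v w' ≤ 2 * (min (G.edist v w') (G.edist v b) + 1) := by gcongr
      _ = 2 * min (G.edist v w') (G.edist v b) + 1 + 1 := by rw [mul_add, mul_one, add_assoc]; rfl
  · exact h.elim

lemma pot_walk {G : SimpleGraph V} {v : V} {x y : V ⊕ G.edgeSet} (p : (subdivision G).Walk x y) :
    pot G v y ≤ pot G v x + p.length := by
  induction p with
  | nil => simp
  | @cons a b c h p ih =>
    calc pot G v c ≤ pot G v b + p.length := ih
      _ ≤ pot G v a + 1 + p.length := by gcongr; exact pot_le h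
      _ = pot G v a + (p.length + 1 : ℕ) := by push_cast; rw [add_assoc, add_comm (1 : ℕ∞)]

lemma pot_le_edist (G : SimpleGraph V) (v : V) (y : V ⊕ G.edgeSet) :
    pot G v y ≤ (subdivision G).edist (Sum.inl v) y := by
  unfold SimpleGraph.edist
  refine le_iInf fun p => ?_
  have h := pot_walk (v := v) p
  have h0 : pot G v (Sum.inl v) = 0 := by
    show 2 * G.edist v v = 0
    simp
  rwa [h0, zero_add] at h

lemma edist_inl_inr_le {G : SimpleGraph V} (v a : V) (e : G.edgeSet) (ha : a ∈ e.1) :
    (subdivision G).edist (Sum.inl v) (Sum.inr e)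
      ≤ (subdivision G).edist (Sum.inl v) (Sum.inl a) + 1 :=
  edist_le_add_one (G := subdivision G) (a := Sum.inl a) (b := Sum.inr e) ha

lemma edist_walk_le {G : SimpleGraph V} {v w : V} (p : G.Walk v w) :
    (subdivision G).edist (Sum.inl v) (Sum.inl w) ≤ 2 * p.length := by
  induction p with
  | nil => simp
  | @cons a b c h p ih =>
    have h1 : (subdivision G).edist (Sum.inl a) (Sum.inr ⟨s(a, b), h⟩) = 1 :=
      SimpleGraph.edist_eq_one_iff_adj.mpr (show a ∈ s(a, b) by simp)
    have h2 : (subdivision G).edist (Sum.inr ⟨s(a, b), h⟩) (Sum.inl b) = 1 :=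
      SimpleGraph.edist_eq_one_iff_adj.mpr (show b ∈ s(a, b) by simp)
    calc (subdivision G).edist (Sum.inl a) (Sum.inl c)
        ≤ (subdivision G).edist (Sum.inl a) (Sum.inl b)
          + (subdivision G).edist (Sum.inl b) (Sum.inl c) := SimpleGraph.edist_triangle
      _ ≤ ((subdivision G).edist (Sum.inl a) (Sum.inr ⟨s(a, b), h⟩)
          + (subdivision G).edist (Sum.inr ⟨s(a, b), h⟩) (Sum.inl b))
          + 2 * p.length := by
            gcongr
            exact SimpleGraph.edist_triangle
      _ = 2 * ((p.length + 1 : ℕ) : ℕ∞) := by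
            rw [h1, h2]; push_cast; ring

lemma edist_inl (G : SimpleGraph V) (v w : V) :
    (subdivision G).edist (Sum.inl v) (Sum.inl w) = 2 * G.edist v w := by
  apply le_antisymm
  · by_cases h : G.Reachable v w
    · obtain ⟨p, hp⟩ := h.exists_walk_length_eq_edist
      rw [← hp]
      exact edist_walk_le p
    · rw [SimpleGraph.edist_eq_top_of_not_reachable h]
      simp
  · exact pot_le_edist G v (Sum.inl w)

lemma edist_inr (G : SimpleGraph V) (v : V) (e : G.edgeSet) :
    (subdivision G).edist (Sum.inl v) (Sum.inr e) = 2 * lev G v e.1 + 1 := by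
  apply le_antisymm
  · obtain ⟨e, he⟩ := e
    induction e using Sym2.ind with
    | _ a b =>
      show _ ≤ 2 * min (G.edist v a) (G.edist v b) + 1
      rcases min_choice (G.edist v a) (G.edist v b) with h | h
      · rw [h, ← edist_inl]
        exact edist_inl_inr_le v a _ (by simp)
      · rw [h, ← edist_inl]
        exact edist_inl_inr_le v b _ (by simp)
  · exact pot_le_edist G v (Sum.inr e)

/-! ## The simulation -/

/-- the vertices of `T` and the new vertices on the edges meeting `T` -/
def P (G : SimpleGraph V) (T : Set V) : Set (V ⊕ G.edgeSet) :=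
  {x | match x with
    | Sum.inl v => v ∈ T
    | Sum.inr e => ∃ v ∈ T, v ∈ e.1}

lemma nbP_inr {G : SimpleGraph V} {T : Set V} {e : G.edgeSet}
    (h : Sum.inr e ∈ nb (subdivision G) (P G T)) : ∃ v ∈ T, v ∈ e.1 := by
  obtain ⟨u, hu, h1 | h1⟩ := h
  · rw [← h1] at hu
    exact hu
  · rcases u with v | f
    · exact ⟨v, hu, h1⟩
    · exact h1.elim

lemma both_ends {G : SimpleGraph V} {T : Set V} {e : G.edgeSet} (h : ∃ v ∈ T, v ∈ e.1) {w : V}
    (hw : w ∈ e.1) : w ∈ nb G T := by
  obtain ⟨v, hv, hve⟩ := h
  obtain ⟨e, he⟩ := e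
  by_cases hvw : v = w
  · subst hvw; exact subset_nb hv
  · have : e = s(v, w) := (Sym2.mem_and_mem_iff hvw).mp ⟨hve, hw⟩
    subst this
    exact ⟨v, hv, Or.inr he⟩

lemma nbP_inl {G : SimpleGraph V} {T : Set V} {w : V}
    (h : Sum.inl w ∈ nb (subdivision G) (P G T)) : w ∈ nb G T := by
  obtain ⟨u, hu, h1 | h1⟩ := h
  · rw [← h1] at hu
    exact subset_nb hu
  · rcases u with v | f
    · exact h1.elim
    · exact both_ends hu h1

/-- the part of the closed neighbourhood of `T` at distance `d` from `v` -/
def C (G : SimpleGraph V) (T : Set V) (v : V) (d : ℕ∞) : Set V :=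
  {w | w ∈ nb G T ∧ G.edist v w = d}

/-- the same set in the subdivision -/
def X (G : SimpleGraph V) (T : Set V) (v : V) (D : ℕ∞) : Set (V ⊕ G.edgeSet) :=
  {x | x ∈ nb (subdivision G) (P G T) ∧ (subdivision G).edist (Sum.inl v) x = D}

/-- an element of `X` that is a new vertex: the edge is `s(a, b)` with `a` the nearer end -/
lemma mem_X_inr {G : SimpleGraph V} {T : Set V} {v : V} {D : ℕ∞} {e : G.edgeSet}
    (h : Sum.inr e ∈ X G T v D) :
    ∃ a b, e.1 = s(a, b) ∧ G.Adj a b ∧ a ∈ nb G T ∧ b ∈ nb G T ∧
      G.edist v a ≤ G.edist v b ∧ 2 * G.edist v a + 1 = D := by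
  obtain ⟨h1, h2⟩ := h
  rw [edist_inr] at h2
  have h3 := nbP_inr h1
  obtain ⟨e, he⟩ := e
  induction e using Sym2.ind with
  | _ a b =>
    have ha : a ∈ nb G T := both_ends h3 (by simp)
    have hb : b ∈ nb G T := both_ends h3 (by simp)
    have hadj : G.Adj a b := he
    change 2 * min (G.edist v a) (G.edist v b) + 1 = D at h2
    rcases le_total (G.edist v a) (G.edist v b) with h | h
    · rw [min_eq_left h] at h2
      exact ⟨a, b, rfl, hadj, ha, hb, h, h2⟩
    · rw [min_eq_right h] at h2
      exact ⟨b, a, Sym2.eq_swap, hadj.symm, hb, ha, h, h2⟩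

lemma mem_X_inl {G : SimpleGraph V} {T : Set V} {v : V} {D : ℕ∞} {w : V}
    (h : Sum.inl w ∈ X G T v D) : w ∈ nb G T ∧ 2 * G.edist v w = D := by
  obtain ⟨h1, h2⟩ := h
  rw [edist_inl] at h2
  exact ⟨nbP_inl h1, h2⟩

/-- the key inclusion: a set `X` with at least two elements lies in `P (C d)` for some `d` such
that `C d` has at least two elements -/
lemma key {G : SimpleGraph V} {T : Set V} {v : V} {D : ℕ∞} (hX : ¬ (X G T v D).Subsingleton) :
    ∃ d, ¬ (C G T v d).Subsingleton ∧ X G T v D ⊆ P G (C G T v d) := by
  by_cases htop : D = ⊤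
  · -- everything is in the part unreachable from `v`
    subst htop
    have hdbl : ∀ x : ℕ∞, 2 * x = ⊤ → x = ⊤ := by
      intro x hx
      by_contra hne
      obtain ⟨n, rfl⟩ := ENat.ne_top_iff_exists.mp hne
      have : (2 : ℕ∞) * n = ((2 * n : ℕ) : ℕ∞) := by push_cast; rfl
      rw [this] at hx
      exact ENat.natCast_ne_top _ hx
    have hdbl' : ∀ x : ℕ∞, 2 * x + 1 = ⊤ → x = ⊤ := by
      intro x hx
      by_contra hne
      obtain ⟨n, rfl⟩ := ENat.ne_top_iff_exists.mp hne
      have : (2 : ℕ∞) * n + 1 = ((2 * n + 1 : ℕ) : ℕ∞) := by push_cast; rfl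
      rw [this] at hx
      exact ENat.natCast_ne_top _ hx
    have hsub : X G T v ⊤ ⊆ P G (C G T v ⊤) := by
      rintro (w | e) hx
      · obtain ⟨h1, h2⟩ := mem_X_inl hx
        exact ⟨h1, hdbl _ h2⟩
      · obtain ⟨a, b, he, hadj, ha, hb, hle, hD⟩ := mem_X_inr hx
        exact ⟨a, ⟨ha, hdbl' _ hD⟩, by rw [he]; simp⟩
    refine ⟨⊤, ?_, hsub⟩
    intro hC
    apply hX
    have hno : ∀ e, Sum.inr e ∉ X G T v ⊤ := by
      intro e hx
      obtain ⟨a, b, he, hadj, ha, hb, hle, hD⟩ := mem_X_inr hx
      have h1 := hdbl' _ hD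
      rw [h1, top_le_iff] at hle
      exact hadj.ne (hC ⟨ha, h1⟩ ⟨hb, hle⟩)
    rintro (w | e) hx (w' | e') hx'
    · obtain ⟨h1, h2⟩ := mem_X_inl hx
      obtain ⟨h1', h2'⟩ := mem_X_inl hx'
      rw [hC ⟨h1, hdbl _ h2⟩ ⟨h1', hdbl _ h2'⟩]
    · exact (hno _ hx').elim
    · exact (hno _ hx).elim
    · exact (hno _ hx).elim
  · obtain ⟨m, rfl⟩ := ENat.ne_top_iff_exists.mp htop
    -- `2 x = m` and `2 x + 1 = m` in `ℕ∞`
    have hd1 : ∀ x : ℕ∞, 2 * x = m → ∃ k : ℕ, x = k ∧ m = 2 * k := by
      intro x hx
      have hne : x ≠ ⊤ := by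
        rintro rfl
        simp at hx
      obtain ⟨n, rfl⟩ := ENat.ne_top_iff_exists.mp hne
      refine ⟨n, rfl, ?_⟩
      have : ((2 * n : ℕ) : ℕ∞) = m := by push_cast; exact hx
      exact_mod_cast this.symm
    have hd2 : ∀ x : ℕ∞, 2 * x + 1 = m → ∃ k : ℕ, x = k ∧ m = 2 * k + 1 := by
      intro x hx
      have hne : x ≠ ⊤ := by
        rintro rfl
        simp at hx
      obtain ⟨n, rfl⟩ := ENat.ne_top_iff_exists.mp hne
      refine ⟨n, rfl, ?_⟩
      have : ((2 * n + 1 : ℕ) : ℕ∞) = m := by push_cast; exact hx
      exact_mod_cast this.symm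
    rcases Nat.even_or_odd' m with ⟨k, hk | hk⟩
    · -- even answer: original vertices only
      have hno : ∀ e, Sum.inr e ∉ X G T v m := by
        intro e hx
        obtain ⟨a, b, he, hadj, ha, hb, hle, hD⟩ := mem_X_inr hx
        obtain ⟨j, -, hj⟩ := hd2 _ hD
        omega
      have hin : ∀ w, Sum.inl w ∈ X G T v m → w ∈ C G T v k := by
        intro w hx
        obtain ⟨h1, h2⟩ := mem_X_inl hx
        obtain ⟨j, hj, hj'⟩ := hd1 _ h2
        refine ⟨h1, ?_⟩
        rw [hj, show j = k by omega]
      refine ⟨k, ?_, ?_⟩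
      · intro hC
        apply hX
        rintro (w | e) hx (w' | e') hx'
        · rw [hC (hin w hx) (hin w' hx')]
        · exact (hno _ hx').elim
        · exact (hno _ hx).elim
        · exact (hno _ hx).elim
      · rintro (w | e) hx
        · exact hin w hx
        · exact (hno _ hx).elim
    · -- odd answer: new vertices only
      have hno : ∀ w, Sum.inl w ∉ X G T v m := by
        intro w hx
        obtain ⟨h1, h2⟩ := mem_X_inl hx
        obtain ⟨j, -, hj⟩ := hd1 _ h2
        omega
      have hin : ∀ e, Sum.inr e ∈ X G T v m → ∃ a b, e.1 = s(a, b) ∧ G.Adj a b ∧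
          a ∈ C G T v k ∧ b ∈ nb G T ∧ (k : ℕ∞) ≤ G.edist v b := by
        intro e hx
        obtain ⟨a, b, he, hadj, ha, hb, hle, hD⟩ := mem_X_inr hx
        obtain ⟨j, hj, hj'⟩ := hd2 _ hD
        have hjk : j = k := by omega
        subst hjk
        exact ⟨a, b, he, hadj, ⟨ha, hj⟩, hb, hj ▸ hle⟩
      by_cases hC : (C G T v k).Subsingleton
      · -- all these edges have the same nearer end
        have hin' : ∀ e, Sum.inr e ∈ X G T v m → ∃ a b, e.1 = s(a, b) ∧ G.Adj a b ∧
            a ∈ C G T v k ∧ b ∈ C G T v (k + 1) := by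
          intro e hx
          obtain ⟨a, b, he, hadj, ha, hb, hle⟩ := hin e hx
          refine ⟨a, b, he, hadj, ha, hb, ?_⟩
          have h1 : G.edist v b ≤ k + 1 := ha.2 ▸ edist_le_add_one hadj
          have h2 : G.edist v b ≠ k := by
            intro h
            exact hadj.ne (hC ha ⟨hb, h⟩)
          have h3 : (k : ℕ∞) < G.edist v b := lt_of_le_of_ne hle h2.symm
          exact le_antisymm h1 (Order.add_one_le_of_lt h3)
        refine ⟨k + 1, ?_, ?_⟩
        · intro hC'
          apply hX
          rintro (w | e) hx (w' | e') hx'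
          · exact (hno _ hx).elim
          · exact (hno _ hx).elim
          · exact (hno _ hx').elim
          · obtain ⟨a, b, he, hadj, ha, hb⟩ := hin' e hx
            obtain ⟨a', b', he', hadj', ha', hb'⟩ := hin' e' hx'
            have h1 := hC ha ha'
            have h2 := hC' hb hb'
            subst h1 h2
            rw [Subtype.ext (he.trans he'.symm)]
        · rintro (w | e) hx
          · exact (hno _ hx).elim
          · obtain ⟨a, b, he, hadj, ha, hb⟩ := hin' e hx
            exact ⟨b, hb, by rw [he]; simp⟩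
      · refine ⟨k, hC, ?_⟩
        rintro (w | e) hx
        · exact (hno _ hx).elim
        · obtain ⟨a, b, he, hadj, ha, hb, hle⟩ := hin e hx
          exact ⟨a, ha, by rw [he]; simp⟩

/-- winning sets lift to the subdivision, with the same number of probes -/
lemma AW_lift {G : SimpleGraph V} :
    ∀ (n : ℕ) (T : Set V), ¬ T.Subsingleton → AW G n T → AW (subdivision G) n (P G T)
  | 0, T, hT, h => (hT h).elim
  | n + 1, T, hT, h => by
    rcases h with h | ⟨v, hv⟩
    · exact (hT h).elim
    · refine Or.inr ⟨Sum.inl v, fun D => ?_⟩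
      change AW (subdivision G) n (X G T v D)
      by_cases hX : (X G T v D).Subsingleton
      · exact AW_of_subsingleton hX n
      · obtain ⟨d, hd, hsub⟩ := key hX
        exact AW_mono n hsub (AW_lift n _ hd (hv d))

/-- **MP_6ae049_co, Q1 (affirmative).**  If `G` is locatable then `G^{1/2}` is locatable. -/
theorem result {V : Type*} (G : SimpleGraph V) (h : Locatable G) : Locatable (subdivision G) := by
  obtain ⟨N, σ, hσ⟩ := h
  have : Nonempty V := ⟨σ []⟩
  have : Nonempty (V ⊕ G.edgeSet) := ⟨Sum.inl (σ [])⟩
  have h1 : AW G N Set.univ := by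
    refine AW_of_strategy hσ N [] (by simp) ?_
    intro L' hne hsuf
    exact (hne (List.suffix_nil.mp hsuf)).elim
  apply locatable_of_AW (n := N)
  by_cases hV : (Set.univ : Set V).Subsingleton
  · apply AW_of_subsingleton
    have hno : G.edgeSet → False := by
      rintro ⟨e, he⟩
      induction e using Sym2.ind with
      | _ a b => exact (SimpleGraph.Adj.ne he) (hV trivial trivial)
    rintro (w | e) _ (w' | e') _
    · rw [hV (Set.mem_univ w) (Set.mem_univ w')]
    · exact (hno e').elim
    · exact (hno e).elim
    · exact (hno e).elim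
  · have h2 := AW_lift N _ hV h1
    have h3 : P G Set.univ = Set.univ := by
      rw [Set.eq_univ_iff_forall]
      rintro (w | ⟨e, he⟩)
      · trivial
      · induction e using Sym2.ind with
        | _ a b => exact ⟨a, trivial, by simp⟩
    rwa [h3] at h2

end Pool.Agent.Results.MP_6ae049_co.SubdivisionLocatable
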